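import Mathlib

namespace Pool.Agent.Results.MP_6eb00f_an.UpperFalse

open Matrix Finset

/-- Sum of the ordered products over injective `m`-tuples with values in `s`. -/
noncomputable def T {n d : ℕ} (A : Fin n → Matrix (Fin d) (Fin d) ℝ) (m : ℕ) (s : Finset (Fin n)) :
    Matrix (Fin d) (Fin d) ℝ :=
  ∑ j ∈ (univ : Finset (Fin m → Fin n)).filter (fun j => Function.Injective j ∧ ∀ k, j k ∈ s),
    (List.ofFn fun k => A (j k)).prod

lemma T_zero {n d : ℕ} (A : Fin n → Matrix (Fin d) (Fin d) ℝ) (s : Finset (Fin n)) :
    T A 0 s = 1 := by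
  unfold T
  have h : (univ : Finset (Fin 0 → Fin n)).filter
      (fun j => Function.Injective j ∧ ∀ k, j k ∈ s) = univ := by
    apply Finset.filter_true_of_mem
    intro j _
    exact ⟨fun a => a.elim0, fun k => k.elim0⟩
  rw [h]
  simp

lemma T_succ {n d : ℕ} (A : Fin n → Matrix (Fin d) (Fin d) ℝ) (m : ℕ) (s : Finset (Fin n)) :
    T A (m + 1) s = ∑ i ∈ s, A i * T A m (s.erase i) := by
  unfold T
  simp only [Finset.mul_sum]
  rw [Finset.sum_sigma']
  symm
  refine Finset.sum_bij' (fun p _ => (Fin.cons p.1 p.2 : Fin (m + 1) → Fin n))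
    (fun j _ => ⟨j 0, Fin.tail j⟩) ?_ ?_ ?_ ?_ ?_
  · rintro ⟨i, j⟩ hp
    simp only [Finset.mem_sigma, Finset.mem_filter, Finset.mem_univ, true_and,
      Finset.mem_erase] at hp ⊢
    obtain ⟨hi, hj, hk⟩ := hp
    refine ⟨Fin.cons_injective_iff.2 ⟨?_, hj⟩, ?_⟩
    · rintro ⟨k, hk'⟩
      exact (hk k).1 hk'
    · intro k
      refine Fin.cases ?_ (fun k => ?_) k
      · simpa using hi
      · simpa using (hk k).2
  · intro j hj
    simp only [Finset.mem_sigma, Finset.mem_filter, Finset.mem_univ, true_and,
      Finset.mem_erase] at hj ⊢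
    obtain ⟨hj, hk⟩ := hj
    refine ⟨hk 0, ?_, fun k => ⟨?_, hk _⟩⟩
    · intro a b hab
      exact Fin.succ_injective _ (hj hab)
    · intro h
      exact Fin.succ_ne_zero k (hj h)
  · rintro ⟨i, j⟩ _
    simp
  · intro j _
    simp
  · rintro ⟨i, j⟩ _
    simp [List.ofFn_succ]

def bt : List (List (List ℤ)) :=
  [[[39, 0, 0], [-13, 8, 4], [-11, 4, -12], [2, -6, -11], [-6, -5, 26], [27, -10, 2], [14, 29, 3]], [[37, 0, 0], [-12, -3, -1], [-2, 31, -14], [-9, 9, 24], [8, 4, 15], [-29, -8, -7], [15, -12, -9]], [[15, 0, -4], [30, 6, -11], [-11, 17, -19], [2, 8, -19], [27, 9, 30], [-23, -11, 19], [-12, 42, 11]], [[19, 0, 2], [27, 10, 12], [8, 43, -12], [-3, 6, 37], [-32, 17, 11], [22, -3, 4], [-6, 1, -17]], [[37, 0, 0], [4, -1, 31], [17, -3, -7], [-16, 15, -7], [13, 18, 0], [7, 25, 3], [-24, 5, 7]], [[18, 0, 3], [-18, 10, 37], [-6, 17, -19], [40, 17, 4], [-13, 15, -11], [-11, 32, -6], [9, 18, 14]]]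

def B (i : Fin 6) : Matrix (Fin 7) (Fin 3) ℤ :=
  Matrix.of fun a k => ((bt.getD i.val []).getD a.val []).getD k.val 0

def zt : List (List (List ℤ)) :=
  [[[1521, -507, -429, 78, -234, 1053, 546], [-507, 249, 127, -118, 142, -423, 62], [-429, 127, 281, 86, -266, -361, -74], [78, -118, 86, 161, -268, 92, -179], [-234, 142, -266, -268, 737, -60, -151], [1053, -423, -361, 92, -60, 833, 94], [546, 62, -74, -179, -151, 94, 1046]], [[1369, -444, -74, -333, 296, -1073, 555], [-444, 154, -55, 57, -123, 379, -135], [-74, -55, 1161, -39, -102, -92, -276], [-333, 57, -39, 738, 324, 21, -459], [296, -123, -102, 324, 305, -369, -63], [-1073, 379, -92, 21, -369, 954, -276], [555, -135, -276, -459, -63, -276, 450]], [[241, 494, -89, 106, 285, -421, -224], [494, 1057, -19, 317, 534, -965, -229], [-89, -19, 771, 475, -714, -295, 637], [106, 317, 475, 429, -444, -495, 103], [285, 534, -714, -444, 1710, -150, 384], [-421, -965, -295, -495, -150, 1011, 23], [-224, -229, 637, 103, 384, 23, 2029]], [[365, 537, 128, 17, -586, 426, -148], [537, 973, 502, 423, -562,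 612, -356], [128, 502, 2057, -210, 343, -1, 199], [17, 423, -210, 1414, 605, 64, -605], [-586, -562, 343, 605, 1434, -711, 22], [426, 612, -1, 64, -711, 509, -203], [-148, -356, 199, -605, 22, -203, 326]], [[1369, 148, 629, -592, 481, 259, -888], [148, 978, -146, -296, 34, 96, 116], [629, -146, 347, -268, 167, 23, -472], [-592, -296, -268, 530, 62, 242, 410], [481, 34, 167, 62, 493, 541, -222], [259, 96, 23, 242, 541, 683, -22], [-888, 116, -472, 410, -222, -22, 650]], [[333, -213, -165, 732, -267, -216, 204], [-213, 1793, -425, -402, -23, 296, 536], [-165, -425, 686, -27, 542, 724, -14], [732, -402, -27, 1905, -309, 80, 722], [-267, -23, 542, -309, 515, 689, -1], [-216, 296, 724, 80, 689, 1181, 393], [204, 536, -14, 722, -1, 393, 601]]]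

def Z (i : Fin 6) (a b : Fin 7) : ℤ := ((zt.getD i.val []).getD a.val []).getD b.val 0

def wt : List (List ℤ) :=
  [[1, 0, 0, 0, 0, 0, 0], [1521, -507, -429, 78, -234, 1053, 546], [1369, -444, -74, -333, 296, -1073, 555], [2834052, -615624, -1235058, -943606, 11543, -76820, 2185017], [241, 494, -89, 106, 285, -421, -224], [-939510, -836110, -178999, -636005, 364144, 746943, 385270], [987308, 984872, 49111, 499154, 1544369, -1583590, 969079], [-1714360480, 1143087647, -666987094, -1556271746, 2947040307, 699955959, 4074091915], [365, 537, 128, 17, -586, 426, -148], [1468428, 412992, -969234, -191149, -2261410, 1423252, -24297], [-933140, -727395, 235930, -1041596, 127865, -115105, 487143], [-1199009072, -110849420, -2736411471, -4133780426, -2623592085, 231857607, 1799996734], [60898, 332915, 389636, 973716, -513107, -162448, -911628], [-2108291626, -3091386156, 100869785, -713615970, -2662369464, -86020321, -2218285112], [-2459915772, -1771603476, 2088580537, 1712564784, 2824965267, 702250254, 437187748], [-10441414022110, -5476056742770,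 2006919145043, -4392279811721, 2725787408927, 2036911705134, -395476086794], [1369, 148, 629, -592, 481, 259, -888], [2733042, -678527, -10008, -27898, 1145712, 2135704, -952371], [2661336, -645317, 1568393, -1189439, 290746, -1523734, -713582], [4734923078, -527317487, 79996388, -765704741, 662978917, 57980018, 137600522], [1022532, 1287086, -742575, -581312, 812505, -437391, -1882786], [-1660144332, -1260370128, -3223211292, -880755026, 2863820075, 1860222152, -2531269053], [2387835108, 2722504600, -177319928, 800215641, 1070508416, -2518035632, -1114386076], [-7623806041228, 5729191128840, -6823704066726, 3533312996998, 3284466616104, 2321890267505, 1365722538262], [1219002, 1708103, 1828548, -432726, -351077, 735690, -394206], [2699673398, 2374144602, 468156664, 702719734, -1586366839, 1771661748, -865433417], [-1122379164, -310466921, 5153555810, -2013192520, -1029751536, -652388383, 1228857920], [-6844491648660, 4593258679454, 1618376514316, -1282678287437, -6777123436282, -4482821632917, 3083783402478], [1505074754, 2408027449, 326714233,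 2435316210, -1182641871, -1006801503, -1649691685], [-4126210252874, -5728627505372, -5632162405000, 4989633634912, -2473801859450, -6725464884034, -4462420602402], [-2807308914588, -2270007189013, 6088679258568, 10421667909038, -1760823059509, 1593318951338, 4059376371955], [-12059399851108190, -6344622857004863, -6296359492889868, 30160564142819593, -10695908329624053, -9962565218990710, 3976265731083124], [333, -213, -165, 732, -267, -216, 204], [1377558, -735426, 276591, 2198055, -521682, 936906, 1126254], [1169718, -1155727, -945386, 1010576, -515752, -1923827, -195169], [2810349822, -394370979, -1258821362, 2875262885, -1255540311, -1383886291, 1075816341], [72906, 772073, 118372, 348594, -871640, -772603, 342260], [-2095942188, -1040524251, 3715176311, -379720658, -1382345570, 251300679, 2230561377], [1605685738, 2537615852, -262364892, 2092063315, -1411218128, -2041259474, 79479910], [-3408440379088, 8686504325773, 8459847980547, -1349214803866, -1852123841421, 2454348499130, 2424221087381], [65484, 1027724, -816413, 875014, 32208,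 312328, 107157], [1808126526, 2830057408, -1494684803, 3146673438, -1308417691, 375340951, 31962813], [-2516769074, -1600538019, -3273866296, -554653301, 1724390886, 170279551, -1652526842], [-4516259276988, 5951566588860, -8593071100486, -2813290017627, 1724224700667, -2592220187176, -7258181422394], [1719819388, 1497248323, -242433602, 1416986208, -595830785, -673723890, -389508916], [2477483553322, -2978611872908, 8084698161901, -3951764389606, -1203044702912, -7350192655068, -3367328751585], [2738211364150, -2733380824667, -570409782626, 1650067416640, 5677263147884, 9101789839006, -5440068451383], [26977202036208596, 3910758327680059, 22510560909468457, -23619445538125932, 17537623434638197, 9621230210082490, -30451296008477233], [-956598, -823703, 460622, -658270, 458958, 387129, -255794], [-1409997432, -2389820433, 2031145350, 2413480786, 2685711927, 2679277904, -61104757], [-1515744590, -3735846419, 939625566, -924559050, -1630000305, -1850413822, -2489512079], [-7418669735456, -851519034115, 3428772346664, 6415350647785, -1497588671098,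 -958870116690, -6085293737500], [-2307420634, 432650914, -1965059041, -3568908250, -1348064171, -243165513, 24402254], [-10008112866046, -4847616693565, 1269959341182, -5693461020005, 1334452649683, 541651069180, 2316305097907], [-2908801782804, 2205959826391, -4481024289326, -2354911679819, -11267334008029, 2296440463881, -1890699304383], [-9737914830427734, 23326962047914377, 4072521217374072, 1466281957130580, -21972868067879440, 11406325292856988, -3516549177237802], [-2320398040, 1840534535, 678115143, -1259254312, 2392411958, 1509013273, 2512403684], [-4145605084626, 6451639809197, 1561737995920, 4827794527334, 8653970588237, -2488229759030, 4452831928836], [-10098129651980, -5177032780696, 429814997244, -4633749801782, 2502420221785, 3486336409217, 1715261733924], [-16560894729401192, 22088305691036258, -5278365970083502, 7840126741249639, 8969280995245899, -14516395487281799, -7811244476943023], [2783825706398, -152200354890, -6276872132834, -3914002941426, -238022594605, -946860804166, 9636178043250], [25525838377661902, -18675163205248145,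 -1428565677336602, -13649439911038218, 12627144737048217, -36643966904310188, 18229530914283799], [31704982117188642, -21175553124936214, -14034675589115083, 402703993501943, -8690941618874474, 35787586178019305, 18238223216411112], [392053626815553692588, -1495004629907764076, 1351974184985045186, 2523155086365179553, -4971731410813731716, -384442136630320866, 838706387680083789]]

def W (s : Finset (Fin 6)) (a : Fin 7) : ℤ := (wt.getD (∑ i ∈ s, 2 ^ i.val) []).getD a.val 0

def ct : List (List ℤ) :=
  [[1, -1, 0, 0, 0, 0, 0], [1, 0, 0, -1, 0, 0, 0], [1, 0, 0, 0, 1, 0, 0], [1, 0, 0, 0, 0, -1, 0], [1, 0, 0, 0, 0, 0, -1], [0, 1, 1, 0, 0, 0, 0], [0, 1, 0, 1, 0, 0, 0], [0, 1, 0, 0, -1, 0, 0], [0, 1, 0, 0, 0, 1, 0], [0, 1, 0, 0, 0, 0, 1], [0, 0, 1, -1, 0, 0, 0], [0, 0, 1, 0, 1, 0, 0], [0, 0, 1, 0, 0, 1, 0], [0, 0, 0, 1, 1, 0, 0], [0, 0, 0, 1, 0, -1, 0], [0, 0, 0, 1, 0, 0, 1], [0, 0, 0, 0, 1, 1, 0], [0, 0, 0, 0, 1, 0, 1], [0, 0, 0, 0, 0, 1, -1], [1, 0, 0, 0, 0, 0, 0], [0, 1, 0, 0, 0, 0, 0], [0, 0, 1, 0, 0, 0, 0], [0, 0, 0, 1, 0, 0, 0], [0, 0, 0,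 0, 1, 0, 0], [0, 0, 0, 0, 0, 1, 0], [0, 0, 0, 0, 0, 0, 1]]

def C (t : Fin 26) (a : Fin 7) : ℤ := (ct.getD t.val []).getD a.val 0

def wgt (t : Fin 26) : ℕ := ([15, 8, 25, 28, 45, 16, 19, 2, 5, 6, 17, 30, 2, 30, 4, 8, 60, 31, 9, 81, 133, 32, 137, 28, 121, 199] : List ℕ).getD t.val 0

lemma hZ : ∀ (i : Fin 6) (a b : Fin 7), Z i a b = ∑ k : Fin 3, B i a k * B i b k := by
  decide +kernel

lemma hW : ∀ s : Finset (Fin 6), s ≠ ∅ → ∀ a : Fin 7,
    W s a = ∑ i ∈ s, ∑ b : Fin 7, Z i a b * W (s.erase i) b := by
  decide +kernel

lemma hW0 : ∀ a : Fin 7, W ∅ a = if a = 0 then 1 else 0 := by decide +kernel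

lemma hM : ∀ a b : Fin 7, (if a = b then 5400 else 0) - ∑ i : Fin 6, Z i a b
    = ∑ t : Fin 26, C t a * (wgt t : ℤ) * C t b := by
  decide +kernel

lemma hU : W univ 0 = 392053626815553692588 := by decide +kernel

noncomputable def A (i : Fin 6) : Matrix (Fin 7) (Fin 7) ℝ :=
  Matrix.of fun a b => (Z i a b : ℝ) / 900

lemma A_psd (i : Fin 6) : (A i).PosSemidef := by
  have h : A i = (Matrix.of fun a k => (B i a k : ℝ) / 30) *
      (Matrix.of fun a k => (B i a k : ℝ) / 30 : Matrix (Fin 7) (Fin 3) ℝ)ᴴ := by
    ext a b
    simp only [A, Matrix.of_apply, Matrix.mul_apply, Matrix.conjTranspose_apply, star_trivial, hZ]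
    push_cast
    rw [Finset.sum_div]
    refine Finset.sum_congr rfl fun k _ => ?_
    ring
  rw [h]
  exact Matrix.posSemidef_self_mul_conjTranspose _

lemma slack_psd : ((6 : ℝ) • (1 : Matrix (Fin 7) (Fin 7) ℝ) - ∑ i, A i).PosSemidef := by
  have h : (6 : ℝ) • (1 : Matrix (Fin 7) (Fin 7) ℝ) - ∑ i, A i =
      (Matrix.of fun t a => (C t a : ℝ) : Matrix (Fin 26) (Fin 7) ℝ)ᴴ *
        Matrix.diagonal (fun t => (wgt t : ℝ) / 900) * (Matrix.of fun t a => (C t a : ℝ)) := by
    ext a b
    have h1 := congrArg (fun z : ℤ => (z : ℝ) / 900) (hM a b)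
    rw [Matrix.mul_apply]
    simp only [Matrix.mul_diagonal, Matrix.sub_apply, Matrix.smul_apply, Matrix.sum_apply, A,
      Matrix.of_apply, Matrix.conjTranspose_apply, star_trivial, Matrix.one_apply, smul_eq_mul]
    push_cast at h1
    rw [sub_div, Finset.sum_div, Finset.sum_div] at h1
    have h2 : ∑ t : Fin 26, (C t a : ℝ) * ((wgt t : ℝ) / 900) * (C t b : ℝ) =
        ∑ t : Fin 26, (C t a : ℝ) * (wgt t : ℝ) * (C t b : ℝ) / 900 :=
      Finset.sum_congr rfl fun t _ => by ring
    rw [h2, ← h1]
    split_ifs <;> norm_num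
  rw [h]
  apply Matrix.PosSemidef.conjTranspose_mul_mul_same
  rw [Matrix.posSemidef_diagonal_iff]
  intro t
  positivity

lemma T_col (m : ℕ) : ∀ s : Finset (Fin 6), s.card = m → ∀ a : Fin 7,
    T A m s a 0 = (W s a : ℝ) / 900 ^ m := by
  induction m with
  | zero =>
    intro s hs a
    rw [Finset.card_eq_zero] at hs
    subst hs
    rw [T_zero, hW0, Matrix.one_apply]
    split_ifs <;> simp
  | succ m ih =>
    intro s hs a
    have hne : s ≠ ∅ := by
      rintro rfl
      simp at hs
    rw [T_succ, hW s hne a, Matrix.sum_apply]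
    push_cast
    rw [Finset.sum_div]
    refine Finset.sum_congr rfl fun i hi => ?_
    rw [Matrix.mul_apply, Finset.sum_div]
    refine Finset.sum_congr rfl fun b _ => ?_
    rw [ih (s.erase i) (by rw [Finset.card_erase_of_mem hi, hs]; rfl) b]
    simp only [A, Matrix.of_apply]
    field_simp
    ring

theorem result : ¬ ∀ (m n d : ℕ), 1 ≤ m → m ≤ n → 1 ≤ d →
    ∀ A : Fin n → Matrix (Fin d) (Fin d) ℝ, (∀ i, (A i).PosSemidef) →
      ((n : ℝ) • (1 : Matrix (Fin d) (Fin d) ℝ) - ∑ i, A i).PosSemidef →
      (((n.factorial : ℝ) / ((n - m).factorial : ℝ)) • (1 : Matrix (Fin d) (Fin d) ℝ) -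
        ∑ j ∈ (Finset.univ : Finset (Fin m → Fin n)).filter Function.Injective,
          (List.ofFn fun k => A (j k)).prod).PosSemidef := by
  intro h
  have h1 := h 6 6 7 (by norm_num) le_rfl (by norm_num) A A_psd (by exact_mod_cast slack_psd)
  have h2 : ∑ j ∈ (Finset.univ : Finset (Fin 6 → Fin 6)).filter Function.Injective,
      (List.ofFn fun k => A (j k)).prod = T A 6 univ := by
    unfold T
    refine Finset.sum_congr ?_ fun _ _ => rfl
    ext j
    simp
  rw [h2] at h1
  have h3 := h1.diag_nonneg (i := 0)
  rw [Matrix.sub_apply, T_col 6 univ (by simp) 0, hU] at h3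
  norm_num [Nat.factorial] at h3

end Pool.Agent.Results.MP_6eb00f_an.UpperFalse
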